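import Mathlib
import Pool.Agent.Y357.PD.Plane
import Pool.Agent.Y357.PD.Growth

/-!
# Distance graphs with `k` distances: finite density form, all dimensions, growth constant

The starting file shows that `k` suitable distances force at least `2 ^ k` colours in the plane and
that `7 ^ k` colours always suffice. Here the lower bound is proved in a density (fractional) form
for a finite set of rational points, the problem is settled in all dimensions `d ≥ 2`, and the
growth constant is shown to exist.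
-/

set_option autoImplicit false

namespace Pool.Agent.Results.MP_843c79_co.FractionalGrowth

open Filter Topology

/-- `m` colours suffice to colour `ℝ ^ d` so that points at a distance in `H` get different
colours. -/
def Colourable (d : ℕ) (H : Finset ℝ) (m : ℕ) : Prop :=
  ∃ col : EuclideanSpace ℝ (Fin d) → Fin m, ∀ x y, dist x y ∈ H → col x ≠ col y

theorem result :
    -- (1) density form: for all `k` and `ε > 0` there are a set `H` of `k` positive rational
    -- distances and a nonempty finite set `V` of rational points of the plane, such that every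
    -- set `A` of points of the plane without two points at a distance in `H` contains at most
    -- `(2 ^ (-k) + ε) |V|` points of every translate of `V`
    (∀ (k : ℕ) (ε : ℝ), 0 < ε → ∃ H : Finset ℚ, H.card = k ∧ (∀ h ∈ H, 0 < h) ∧
      ∃ V : Finset (EuclideanSpace ℝ (Fin 2)), V.Nonempty ∧
        (∀ v ∈ V, ∀ i, ∃ r : ℚ, v i = r) ∧
        ∀ A : Set (EuclideanSpace ℝ (Fin 2)),
          (∀ x ∈ A, ∀ y ∈ A, ∀ h ∈ H, dist x y ≠ (h : ℝ)) →
          ∀ x, ({v | v ∈ V ∧ x + v ∈ A}.ncard : ℝ) ≤ (1 / 2 ^ k + ε) * V.card) ∧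
    -- (2) in every dimension `d ≥ 2` the largest chromatic number `f k` of a graph on `ℝ ^ d`
    -- given by `k` distances exists; `2 ^ k ≤ f k ≤ (d + 1) ^ (d k)`, and `f k ≤ 7 ^ k` if `d = 2`;
    -- `f` is submultiplicative, and the growth constant `L = lim f(k) ^ (1/k)` exists, satisfies
    -- `2 ≤ L ≤ f 1` and `L ^ k ≤ f k` for all `k`
    (∀ d : ℕ, 2 ≤ d → ∃ f : ℕ → ℕ,
      (∀ k, IsGreatest {n : ℕ | ∃ H : Finset ℝ, H.card = k ∧ (∀ h ∈ H, 0 < h) ∧
        IsLeast {m : ℕ | Colourable d H m} n} (f k)) ∧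
      (∀ k, 2 ^ k ≤ f k ∧ f k ≤ ((d + 1) ^ d) ^ k) ∧ (d = 2 → ∀ k, f k ≤ 7 ^ k) ∧
      (∀ k l, f (k + l) ≤ f k * f l) ∧
      ∃ L : ℝ, 2 ≤ L ∧ L ≤ f 1 ∧
        Tendsto (fun k : ℕ => (f k : ℝ) ^ (1 / (k : ℝ))) atTop (𝓝 L) ∧
        ∀ k, L ^ k ≤ f k) := by
  refine ⟨Pool.Agent.Y357.PD.plane_density, ?_⟩
  intro d hd
  have hC : ∀ h : ℝ, 0 < h → Pool.Agent.Y357.PD.Good d {h} ((d + 1) ^ d) :=
    fun h hh => Pool.Agent.Y357.PD.good_one (by omega) hh
  refine ⟨Pool.Agent.Y357.PD.f d, fun k => (Pool.Agent.Y357.PD.f_greatest hC k).1,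
    fun k => ⟨Pool.Agent.Y357.PD.two_pow_le hd hC k, (Pool.Agent.Y357.PD.f_greatest hC k).2⟩,
    ?_, Pool.Agent.Y357.PD.f_mul hC, Pool.Agent.Y357.PD.growth hd hC⟩
  intro hd2 k
  subst hd2
  exact (Pool.Agent.Y357.PD.f_greatest (fun h hh => Pool.Agent.Y357.PD.good_seven hh) k).2

end Pool.Agent.Results.MP_843c79_co.FractionalGrowth
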